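import Pool.Agent.H601.T8.Word
import Pool.Agent.H601.Rep

/-!
# The dichotomy for iterated morphisms
-/

set_option autoImplicit false

namespace Pool.Agent.H601.T8

open Finset

variable {S : Type}

/-- sum over a list with at most one large term -/
theorem sum_one_large (g : S → ℕ) (P : S → Prop) (b B : ℕ) (w : List S)
    (h1 : ∀ y ∈ w, P y → g y ≤ B) (h2 : ∀ y ∈ w, ¬ P y → g y ≤ b)
    (h3 : ∀ α z β z' γ, w = α ++ [z] ++ β ++ [z'] ++ γ → P z → ¬ P z') :
    (w.map g).sum ≤ B + w.length * b := by
  classical
  induction w with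
  | nil => simp
  | cons y w ih =>
    rw [List.map_cons, List.sum_cons, List.length_cons]
    by_cases hy : P y
    · have h4 : ∀ y' ∈ w, g y' ≤ b := by
        intro y' hy'
        refine h2 y' (List.mem_cons_of_mem _ hy') ?_
        obtain ⟨β, γ, rfl⟩ := mem_split hy'
        exact h3 [] y β y' γ (by simp) hy
      have h5 : (w.map g).sum ≤ w.length * b := by
        calc (w.map g).sum ≤ (w.map (fun _ => b)).sum := List.sum_le_sum h4
          _ = w.length * b := by simp
      have h6 := h1 y List.mem_cons_self hy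
      nlinarith
    · have h4 := ih (fun y' hy' => h1 y' (List.mem_cons_of_mem _ hy'))
        (fun y' hy' => h2 y' (List.mem_cons_of_mem _ hy'))
        (fun α z β z' γ hw => h3 (y :: α) z β z' γ (by rw [hw]; simp))
      have h6 := h2 y List.mem_cons_self hy
      nlinarith

/-- useful letters -/
def Useful (φ : S → List S) (a : S) (M : Set S) : Set S :=
  {x | Below φ a x ∧ ∃ l, (pos M (iter φ l x)).Nonempty}

theorem productive_of_below {φ : S → List S} {M : Set S} {x y : S} (h : Below φ x y)
    (hy : ∃ l, (pos M (iter φ l y)).Nonempty) : ∃ l, (pos M (iter φ l x)).Nonempty := by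
  obtain ⟨m, hm⟩ := h
  obtain ⟨l, n, hn⟩ := hy
  refine ⟨m + l, ?_⟩
  rw [iter_add]
  obtain ⟨α, β, h1⟩ := mem_split hm
  rw [h1, List.flatMap_append, List.flatMap_append]
  refine ⟨(List.flatMap (iter φ l) α).length + n, ?_⟩
  apply pos_append_left
  apply pos_append_right
  simpa using hn

/-- Case 2: polynomially many marked letters. -/
theorem poly_count [Finite S] (φ : S → List S) (a : S) (M : Set S) (E : ℕ) (hE1 : 1 ≤ E)
    (hE : ∀ x, (φ x).length ≤ E)
    (hno : ∀ x ∈ Useful φ a M, ∀ p, 1 ≤ p → ¬ Twice x (iter φ p x)) (l : ℕ) :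
    ∀ x, Below φ a x → (pos M (iter φ l x)).ncard ≤
      (E * (l + 1)) ^ ({y | y ∈ Useful φ a M ∧ Below φ x y} : Set S).ncard := by
  classical
  set ρ : S → ℕ := fun x => ({y | y ∈ Useful φ a M ∧ Below φ x y} : Set S).ncard with hρ
  induction l with
  | zero =>
    intro x _
    have h1 : (pos M (iter φ 0 x)).ncard ≤ 1 := by
      have hsub : pos M (iter φ 0 x) ⊆ {0} := by
        intro n hn
        have := pos_lt hn
        simp [iter] at this
        simp [this]
      calc (pos M (iter φ 0 x)).ncard ≤ ({0} : Set ℕ).ncard :=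
            Set.ncard_le_ncard hsub (Set.finite_singleton 0)
        _ = 1 := Set.ncard_singleton 0
    refine h1.trans (Nat.one_le_pow _ _ (by omega))
  | succ l ih =>
    intro x hx
    by_cases hprod : ∃ l, (pos M (iter φ l x)).Nonempty
    swap
    · push Not at hprod
      have h1 := hprod (l + 1)
      rw [h1, Set.ncard_empty]
      exact Nat.zero_le _
    have hxU : x ∈ Useful φ a M := ⟨hx, hprod⟩
    have hchild : ∀ y ∈ φ x, Below φ x y := by
      intro y hy
      refine ⟨1, ?_⟩
      rw [show (1 : ℕ) = 0 + 1 by rfl, iter_succ]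
      rw [List.mem_flatMap]
      exact ⟨y, hy, by simp [iter]⟩
    have hρ1 : 1 ≤ ρ x := by
      rw [hρ]
      simp only
      rw [Nat.one_le_iff_ne_zero, ← Nat.pos_iff_ne_zero, Set.ncard_pos (Set.toFinite _)]
      exact ⟨x, hxU, Below.refl φ x⟩
    have hmono : ∀ y, Below φ x y → ρ y ≤ ρ x := by
      intro y hy
      apply Set.ncard_le_ncard _ (Set.toFinite _)
      rintro z ⟨h1, h2⟩
      exact ⟨h1, hy.trans h2⟩
    have hstrict : ∀ y, Below φ x y → ¬ Below φ y x → ρ y ≤ ρ x - 1 := by
      intro y hy hyx
      have h1 : ρ y < ρ x := by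
        apply Set.ncard_lt_ncard _ (Set.toFinite _)
        rw [Set.ssubset_iff_of_subset]
        · exact ⟨x, ⟨hxU, Below.refl φ x⟩, fun h => hyx h.2⟩
        · rintro z ⟨h1, h2⟩
          exact ⟨h1, hy.trans h2⟩
      omega
    have hb : 1 ≤ E * (l + 1) := Nat.mul_pos (by omega) (by omega)
    have h1 := sum_one_large (fun y => (pos M (iter φ l y)).ncard) (fun y => Below φ y x)
      ((E * (l + 1)) ^ (ρ x - 1)) ((E * (l + 1)) ^ (ρ x)) (φ x)
      (fun y hy _ => (ih y (hx.trans (hchild y hy))).trans
        (Nat.pow_le_pow_right hb (hmono y (hchild y hy))))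
      (fun y hy hyx => (ih y (hx.trans (hchild y hy))).trans
        (Nat.pow_le_pow_right hb (hstrict y (hchild y hy) hyx)))
      (fun α z β z' γ hw hz hz' => by
        obtain ⟨p, hp, h2⟩ := twice_of_two hw hz hz'
        exact hno x hxU p hp h2)
    rw [iter_succ]
    refine (ncard_pos_flatMap_le M _ _).trans (h1.trans ?_)
    obtain ⟨r, hr⟩ : ∃ r, ρ x = r + 1 := ⟨ρ x - 1, by omega⟩
    have hgoal : ({y | y ∈ Useful φ a M ∧ Below φ x y} : Set S).ncard = r + 1 := hr
    rw [hgoal, hr, Nat.add_sub_cancel]
    have h2 : (E * (l + 1)) ^ r ≤ (E * (l + 1 + 1)) ^ r :=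
      Nat.pow_le_pow_left (Nat.mul_le_mul_left _ (by omega)) r
    calc (E * (l + 1)) ^ (r + 1) + (φ x).length * (E * (l + 1)) ^ r
        ≤ (E * (l + 1)) ^ (r + 1) + E * (E * (l + 1)) ^ r :=
          Nat.add_le_add_left (Nat.mul_le_mul_right _ (hE x)) _
      _ = (E * (l + 1)) ^ r * (E * (l + 1 + 1)) := by ring
      _ ≤ (E * (l + 1 + 1)) ^ r * (E * (l + 1 + 1)) := Nat.mul_le_mul_right _ h2
      _ = (E * (l + 1 + 1)) ^ (r + 1) := by rw [pow_succ]

/-- Case 1: symmetric sets of positions. -/
theorem cube (φ : S → List S) (M : Set S) (x : S) (p s : ℕ) (hx : Twice x (iter φ p x))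
    (hs : (pos M (iter φ s x)).Nonempty) (t : ℕ) :
    ∃ (Q : Finset ℕ) (m : ℕ), Q.card = 2 ^ t ∧
      ∀ q ∈ Q, q ∈ pos M (iter φ (p * t + s) x) ∧ q ≤ m ∧ m - q ∈ Q := by
  classical
  obtain ⟨α, β, γ, hw⟩ := hx
  induction t with
  | zero =>
    obtain ⟨q, hq⟩ := hs
    refine ⟨{q}, 2 * q, by simp, ?_⟩
    intro q' hq'
    rw [mem_singleton] at hq'
    subst hq'
    refine ⟨?_, by omega, ?_⟩
    · rw [Nat.mul_zero, Nat.zero_add]; exact hq
    · rw [mem_singleton]; omega
  | succ t ih =>
    obtain ⟨Q, m, hcard, hQ⟩ := ih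
    set F := iter φ (p * t + s) with hF
    have hit : iter φ (p * (t + 1) + s) x =
        (α.flatMap F) ++ (F x ++ ((β.flatMap F) ++ (F x ++ (γ.flatMap F)))) := by
      rw [show p * (t + 1) + s = p + (p * t + s) by ring, iter_add, hw]
      simp only [List.flatMap_append, List.flatMap_cons, List.flatMap_nil, List.append_nil,
        List.append_assoc]
      rfl
    set a := (α.flatMap F).length with ha
    set L := (F x).length with hL
    set b := (β.flatMap F).length with hb
    refine ⟨Q.image (fun q => a + q) ∪ Q.image (fun q => a + (L + (b + q))),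
      2 * a + L + b + m, ?_, ?_⟩
    · rw [card_union_of_disjoint, card_image_of_injective, card_image_of_injective, hcard,
        pow_succ, Nat.mul_two]
      · intro q q' h
        simp only at h
        omega
      · intro q q' h
        simp only at h
        omega
      · rw [disjoint_left]
        intro z h1 h2
        rw [mem_image] at h1 h2
        obtain ⟨q, hq, rfl⟩ := h1
        obtain ⟨q', hq', h3⟩ := h2
        have := pos_lt (hQ q hq).1
        omega
    · intro z hz
      rw [mem_union, mem_image, mem_image] at hz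
      rcases hz with ⟨q, hq, rfl⟩ | ⟨q, hq, rfl⟩
      · obtain ⟨h1, h2, h3⟩ := hQ q hq
        refine ⟨?_, by omega, ?_⟩
        · rw [hit]
          apply pos_append_right
          apply pos_append_left
          exact h1
        · rw [mem_union, mem_image, mem_image]
          right
          exact ⟨m - q, h3, by omega⟩
      · obtain ⟨h1, h2, h3⟩ := hQ q hq
        refine ⟨?_, by omega, ?_⟩
        · rw [hit]
          apply pos_append_right
          apply pos_append_right
          apply pos_append_right
          apply pos_append_left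
          exact h1
        · rw [mem_union, mem_image, mem_image]
          left
          exact ⟨m - q, h3, by omega⟩

end Pool.Agent.H601.T8
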