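import Pool.Agent.H601.T8.Growth

/-!
# Morphic sets
-/

set_option autoImplicit false

namespace Pool.Agent.H601.T8

open Finset Filter

/-- the positions of the letters of `M` in the infinite word `lim φ^l(a)` -/
def morphic {S : Type} (φ : S → List S) (a : S) (M : Set S) : Set ℕ :=
  {n | ∃ l, ∃ x ∈ M, (iter φ l a)[n]? = some x}

/-- every set that contains `A` has power growth, for all orders -/
def PowerGrowth (A : Set ℕ) : Prop :=
  ∀ B : Set ℕ, A ⊆ B → ∀ h : ℕ, 2 ≤ h → ∃ c : ℝ, 0 < c ∧ ∃ᶠ n : ℕ in atTop,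
    (n : ℝ) ^ c ≤ (rep B h n : ℝ)

section

variable {S : Type} {φ : S → List S} {a : S} {M : Set S}

theorem pos_subset_morphic (l : ℕ) : pos M (iter φ l a) ⊆ morphic φ a M := by
  rintro n ⟨x, hx, hn⟩
  exact ⟨l, x, hx, hn⟩

theorem prefix_iter (ha : ∃ u, φ a = a :: u) (l m : ℕ) (h : l ≤ m) :
    ∃ v, iter φ m a = iter φ l a ++ v := by
  obtain ⟨u, hu⟩ := ha
  induction m, h using Nat.le_induction with
  | base => exact ⟨[], by simp⟩
  | succ m _ ih =>
    obtain ⟨v, hv⟩ := ih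
    refine ⟨v ++ u.flatMap (iter φ m), ?_⟩
    rw [iter_succ, hu, List.flatMap_cons, hv, List.append_assoc]

theorem morphic_inter (ha : ∃ u, φ a = a :: u) (l : ℕ) :
    morphic φ a M ∩ Set.Iio (iter φ l a).length = pos M (iter φ l a) := by
  ext n
  constructor
  · rintro ⟨⟨m, x, hx, hn⟩, hlt⟩
    rw [Set.mem_Iio] at hlt
    rcases le_total l m with h | h
    · obtain ⟨v, hv⟩ := prefix_iter ha l m h
      rw [hv, List.getElem?_append_left hlt] at hn
      exact ⟨x, hx, hn⟩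
    · obtain ⟨v, hv⟩ := prefix_iter ha m l h
      refine ⟨x, hx, ?_⟩
      rw [hv, List.getElem?_append_left (List.getElem?_eq_some_iff.1 hn).1]
      exact hn
  · intro hn
    exact ⟨pos_subset_morphic l hn, pos_lt hn⟩

/-- Case 1 gives power growth. -/
theorem power_of_twice (E : ℕ) (hE1 : 1 ≤ E) (hE : ∀ x, (φ x).length ≤ E) (x : S)
    (hxU : x ∈ Useful φ a M) (p : ℕ) (hx : Twice x (iter φ p x)) :
    PowerGrowth (morphic φ a M) := by
  intro B hB h hh
  obtain ⟨⟨r, hr⟩, s, hs⟩ := hxU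
  obtain ⟨α, β, hα⟩ := mem_split hr
  -- a fixed element
  obtain ⟨b, hb⟩ : ∃ b, b ∈ B := by
    obtain ⟨n, hn⟩ := productive_of_below ⟨r, hr⟩ ⟨s, hs⟩ |>.choose_spec
    exact ⟨n, hB (pos_subset_morphic _ hn)⟩
  -- the numbers with many representations
  have key : ∀ t : ℕ, ∃ n, 2 ^ t ≤ 2 * rep B h n ∧
      n ≤ (2 * E ^ (r + s) + (h - 2) * b) * (E ^ p) ^ t := by
    intro t
    obtain ⟨Q, m, hcard, hQ⟩ := cube φ M x p s hx hs t
    set o := (α.flatMap (iter φ (p * t + s))).length with ho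
    have hin : ∀ q ∈ Q, o + q ∈ pos M (iter φ (r + (p * t + s)) a) := by
      intro q hq
      rw [iter_add, hα, List.flatMap_append, List.flatMap_append]
      apply pos_append_left
      apply pos_append_right
      simpa using (hQ q hq).1
    have h1 := card_le_rep (A := B) hh Q o m b
      (fun q hq => ⟨hB (pos_subset_morphic _ (hin q hq)), (hQ q hq).2⟩) hb
    rw [hcard] at h1
    refine ⟨2 * o + m + (h - 2) * b, h1, ?_⟩
    obtain ⟨q, hq⟩ : Q.Nonempty := by
      rw [← Finset.card_pos, hcard]; positivity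
    have h2 := pos_lt (hin q hq)
    have h3 := pos_lt (hin (m - q) (hQ q hq).2.2)
    have h4 := (hQ q hq).2.1
    have h5 := length_iter_le φ E hE (r + (p * t + s)) a
    have h6 : E ^ (r + (p * t + s)) = E ^ (r + s) * (E ^ p) ^ t := by
      rw [← pow_mul, ← pow_add]; congr 1; ring
    have h7 : 1 ≤ (E ^ p) ^ t := Nat.one_le_pow _ _ (Nat.pos_of_ne_zero (by positivity))
    have h8 : (h - 2) * b ≤ (h - 2) * b * (E ^ p) ^ t := Nat.le_mul_of_pos_right _ h7
    calc 2 * o + m + (h - 2) * b ≤ 2 * (E ^ (r + s) * (E ^ p) ^ t) + (h - 2) * b := by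
          rw [← h6]; omega
      _ ≤ 2 * (E ^ (r + s) * (E ^ p) ^ t) + (h - 2) * b * (E ^ p) ^ t :=
          Nat.add_le_add_left h8 _
      _ = (2 * E ^ (r + s) + (h - 2) * b) * (E ^ p) ^ t := by ring
  set G := 2 * E ^ (r + s) + (h - 2) * b + E ^ p + 2 with hG
  have hG2 : (2 : ℝ) ≤ G := by
    have : 2 ≤ G := by omega
    exact_mod_cast this
  have hlG : 0 < Real.log G := Real.log_pos (by linarith)
  have hl2 : 0 < Real.log 2 := Real.log_pos (by norm_num)
  refine ⟨Real.log 2 / (2 * Real.log G), by positivity, ?_⟩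
  rw [frequently_atTop]
  intro N₀
  obtain ⟨t, ht⟩ : ∃ t, 2 * (N₀ + 1) ^ h < t := ⟨_, Nat.lt_succ_self _⟩
  obtain ⟨n, hn1, hn2⟩ := key (t + 3)
  have hn3 : N₀ ≤ n := by
    by_contra hcon
    push Not at hcon
    have h1 := rep_le_pow B h n
    have h2 : (n + 1) ^ h ≤ (N₀ + 1) ^ h := Nat.pow_le_pow_left (by omega) h
    have h3 : t < 2 ^ t := Nat.lt_two_pow_self
    have h4 : 2 ^ t ≤ 2 ^ (t + 3) := Nat.pow_le_pow_right (by norm_num) (by omega)
    omega
  refine ⟨n, hn3, ?_⟩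
  have h1 : (n : ℝ) ≤ (G : ℝ) ^ (t + 4) := by
    have h2 : n ≤ G ^ (t + 4) := by
      refine hn2.trans ?_
      rw [pow_succ' G (t + 3)]
      apply Nat.mul_le_mul (by omega)
      exact Nat.pow_le_pow_left (by omega) _
    exact_mod_cast h2
  have h3 : (n : ℝ) ^ (Real.log 2 / (2 * Real.log G)) ≤ (2 : ℝ) ^ (((t + 4 : ℕ) : ℝ) / 2) := by
    calc (n : ℝ) ^ (Real.log 2 / (2 * Real.log G))
        ≤ ((G : ℝ) ^ (t + 4)) ^ (Real.log 2 / (2 * Real.log G)) :=
          Real.rpow_le_rpow (Nat.cast_nonneg _) h1 (by positivity)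
      _ = (2 : ℝ) ^ (((t + 4 : ℕ) : ℝ) / 2) := by
          rw [← Real.rpow_natCast, ← Real.rpow_mul (by linarith)]
          rw [Real.rpow_def_of_pos (by linarith), Real.rpow_def_of_pos (by norm_num)]
          congr 1
          field_simp
  have h4 : (2 : ℝ) ^ (((t + 4 : ℕ) : ℝ) / 2) ≤ (2 : ℝ) ^ (t + 2) := by
    rw [← Real.rpow_natCast]
    apply Real.rpow_le_rpow_of_exponent_le (by norm_num)
    push_cast
    have : (0 : ℝ) ≤ t := Nat.cast_nonneg _
    linarith
  have h5 : ((2 : ℝ)) ^ (t + 2) ≤ rep B h n := by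
    have h6 : 2 ^ (t + 2) ≤ rep B h n := by
      have : 2 ^ (t + 3) = 2 * 2 ^ (t + 2) := by rw [pow_succ]; ring
      omega
    exact_mod_cast h6
  linarith

/-- The dichotomy. -/
theorem dichotomy [Finite S] (ha : ∃ u, φ a = a :: u) :
    (∃ E s : ℕ, ∀ l, (morphic φ a M ∩ Set.Iio (iter φ l a).length).ncard ≤ (E * (l + 1)) ^ s) ∨
      PowerGrowth (morphic φ a M) := by
  obtain ⟨E, hE1, hE⟩ : ∃ E, 1 ≤ E ∧ ∀ x, (φ x).length ≤ E := by
    obtain ⟨E, hE⟩ := (Set.finite_range (fun x => (φ x).length)).bddAbove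
    exact ⟨E + 1, by omega, fun x => (hE ⟨x, rfl⟩).trans (Nat.le_succ _)⟩
  by_cases hex : ∃ x ∈ Useful φ a M, ∃ p, 1 ≤ p ∧ Twice x (iter φ p x)
  · obtain ⟨x, hx, p, _, h⟩ := hex
    exact Or.inr (power_of_twice E hE1 hE x hx p h)
  · push Not at hex
    left
    refine ⟨E, ({y | y ∈ Useful φ a M ∧ Below φ a y} : Set S).ncard, fun l => ?_⟩
    rw [morphic_inter ha l]
    exact poly_count φ a M E hE1 hE hex l a (Below.refl φ a)

/-- exponential growth -/
def Exponential (φ : S → List S) (a : S) : Prop :=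
  ∃ c θ : ℝ, 0 < c ∧ 1 < θ ∧ ∀ l, c * θ ^ l ≤ (iter φ l a).length

/-- polylogarithmically thin sets -/
def Polylog (A : Set ℕ) : Prop :=
  ∃ (C : ℝ) (s : ℕ), ∀ N : ℕ, 2 ≤ N → ((A ∩ Set.Iio N).ncard : ℝ) ≤ C * Real.log N ^ s

theorem polylog_of_poly (hexp : Exponential φ a) {E s : ℕ}
    (h : ∀ l, (morphic φ a M ∩ Set.Iio (iter φ l a).length).ncard ≤ (E * (l + 1)) ^ s) :
    Polylog (morphic φ a M) := by
  obtain ⟨c, θ, hc, hθ, hlen⟩ := hexp
  have hlθ : 0 < Real.log θ := Real.log_pos hθ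
  have hl2 : 0 < Real.log 2 := Real.log_pos (by norm_num)
  set K : ℝ := 1 / Real.log θ + (|Real.log c| / Real.log θ + 2) / Real.log 2 with hK
  have hK0 : 0 ≤ K := by positivity
  refine ⟨(E * K) ^ s, s, fun N hN => ?_⟩
  have hN' : (2 : ℝ) ≤ N := by exact_mod_cast hN
  have hlN : Real.log 2 ≤ Real.log N := Real.log_le_log (by norm_num) hN'
  set l := ⌈(Real.log N - Real.log c) / Real.log θ⌉₊ with hl
  have h1 : (Real.log N - Real.log c) / Real.log θ ≤ l := Nat.le_ceil _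
  have h2 : (N : ℝ) ≤ (iter φ l a).length := by
    refine le_trans ?_ (hlen l)
    have h3 : Real.log N ≤ Real.log (c * θ ^ l) := by
      rw [Real.log_mul hc.ne' (by positivity), Real.log_pow]
      rw [div_le_iff₀ hlθ] at h1
      linarith
    exact (Real.log_le_log_iff (by linarith) (by positivity)).1 h3
  have h2' : N ≤ (iter φ l a).length := by exact_mod_cast h2
  have h3 : (morphic φ a M ∩ Set.Iio N).ncard ≤ (E * (l + 1)) ^ s := by
    refine le_trans ?_ (h l)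
    apply Set.ncard_le_ncard _ ((Set.finite_Iio _).subset Set.inter_subset_right)
    exact Set.inter_subset_inter_right _ (Set.Iio_subset_Iio h2')
  have h4 : ((l : ℝ) + 1) ≤ K * Real.log N := by
    have h5 : (l : ℝ) ≤ (Real.log N + |Real.log c|) / Real.log θ + 1 := by
      have h6 : (l : ℝ) ≤ ⌈(Real.log N + |Real.log c|) / Real.log θ⌉₊ := by
        have : l ≤ ⌈(Real.log N + |Real.log c|) / Real.log θ⌉₊ := by
          apply Nat.ceil_le_ceil
          apply div_le_div_of_nonneg_right _ hlθ.le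
          linarith [neg_abs_le (Real.log c)]
        exact_mod_cast this
      refine h6.trans (Nat.ceil_lt_add_one ?_).le
      apply div_nonneg _ hlθ.le
      have := abs_nonneg (Real.log c)
      linarith
    have h7 : (|Real.log c| / Real.log θ + 2) ≤
        (|Real.log c| / Real.log θ + 2) / Real.log 2 * Real.log N := by
      rw [div_mul_eq_mul_div, le_div_iff₀ hl2]
      apply mul_le_mul_of_nonneg_left hlN (by positivity)
    calc (l : ℝ) + 1 ≤ Real.log N / Real.log θ + (|Real.log c| / Real.log θ + 2) := by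
          rw [add_div] at h5; linarith
      _ ≤ Real.log N / Real.log θ +
          (|Real.log c| / Real.log θ + 2) / Real.log 2 * Real.log N := by linarith
      _ = K * Real.log N := by rw [hK]; ring
  calc ((morphic φ a M ∩ Set.Iio N).ncard : ℝ) ≤ (((E * (l + 1)) ^ s : ℕ) : ℝ) := by
        exact_mod_cast h3
    _ = ((E : ℝ) * ((l : ℝ) + 1)) ^ s := by push_cast; ring
    _ ≤ ((E : ℝ) * (K * Real.log N)) ^ s := by
        apply pow_le_pow_left₀ (by positivity)
        exact mul_le_mul_of_nonneg_left h4 (Nat.cast_nonneg _)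
    _ = (E * K) ^ s * Real.log N ^ s := by rw [← mul_pow]; ring

end

/-- a finite union of polylogarithmically thin sets is polylogarithmically thin -/
theorem not_polylog_of_dense {A : Set ℕ} (h : Polylog A) (ε : ℝ) (hε : 0 < ε) :
    ∀ᶠ N : ℕ in atTop, ((A ∩ Set.Iio N).ncard : ℝ) < (N : ℝ) ^ ε := by
  obtain ⟨C, s, hC⟩ := h
  have h1 : (fun x : ℝ => Real.log x ^ (s : ℝ)) =o[atTop] fun x => x ^ ε :=
    isLittleO_log_rpow_rpow_atTop (s : ℝ) hε
  have h2 := h1.bound (show (0 : ℝ) < 1 / (2 * (|C| + 1)) by positivity)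
  have h3 := tendsto_natCast_atTop_atTop.eventually h2 (α := ℕ)
  filter_upwards [h3, eventually_ge_atTop 3] with N h4 hN3
  have hN : (3 : ℝ) ≤ N := by exact_mod_cast hN3
  have hl : 0 ≤ Real.log N := Real.log_nonneg (by linarith)
  have h5 := hC N (by omega)
  rw [Real.norm_of_nonneg (by positivity), Real.norm_of_nonneg (by positivity),
    Real.rpow_natCast] at h4
  have h6 : 0 < (N : ℝ) ^ ε := by positivity
  calc ((A ∩ Set.Iio N).ncard : ℝ) ≤ C * Real.log N ^ s := h5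
    _ ≤ (|C| + 1) * Real.log N ^ s := by
        apply mul_le_mul_of_nonneg_right _ (by positivity)
        linarith [le_abs_self C]
    _ ≤ (|C| + 1) * (1 / (2 * (|C| + 1)) * (N : ℝ) ^ ε) :=
        mul_le_mul_of_nonneg_left h4 (by positivity)
    _ = (N : ℝ) ^ ε / 2 := by field_simp
    _ < (N : ℝ) ^ ε := by linarith

/-- finite unions -/
theorem union_growth {ι : Type} [Finite ι] (A : ι → Set ℕ)
    (hA : ∀ i, Polylog (A i) ∨ PowerGrowth (A i)) (ε : ℝ) (hε : 0 < ε)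
    (hd : ∃ᶠ N : ℕ in atTop, (N : ℝ) ^ ε ≤ (((⋃ i, A i) ∩ Set.Iio N).ncard : ℝ)) :
    PowerGrowth (⋃ i, A i) := by
  classical
  by_contra hno
  have hall : ∀ i, Polylog (A i) := by
    intro i
    rcases hA i with h | h
    · exact h
    · exfalso
      exact hno fun B hB k hk => h B ((Set.subset_iUnion A i).trans hB) k hk
  have := Fintype.ofFinite ι
  have h1 : ∀ᶠ N : ℕ in atTop, ∀ i, ((A i ∩ Set.Iio N).ncard : ℝ) < (N : ℝ) ^ (ε / 2) := by
    rw [eventually_all]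
    exact fun i => not_polylog_of_dense (hall i) (ε / 2) (by linarith)
  have h2 : ∀ᶠ N : ℕ in atTop, (Fintype.card ι : ℝ) + 1 ≤ (N : ℝ) ^ (ε / 2) :=
    ((tendsto_rpow_atTop (show 0 < ε / 2 by linarith)).comp
      tendsto_natCast_atTop_atTop).eventually_ge_atTop _
  obtain ⟨N, h3, h4, h5, h6⟩ := (hd.and_eventually (h1.and (h2.and (eventually_ge_atTop 1)))).exists
  have hN : (1 : ℝ) ≤ N := by exact_mod_cast h6
  have h7 : ((⋃ i, A i) ∩ Set.Iio N).ncard ≤ ∑ i, (A i ∩ Set.Iio N).ncard := by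
    have hfin : ∀ i, (A i ∩ Set.Iio N).Finite := fun i =>
      (Set.finite_Iio N).subset Set.inter_subset_right
    have hsub : ((⋃ i, A i) ∩ Set.Iio N) ⊆
        ((Finset.univ.biUnion fun i => (hfin i).toFinset : Finset ℕ) : Set ℕ) := by
      rintro x ⟨hx, hx'⟩
      rw [Set.mem_iUnion] at hx
      obtain ⟨i, hi⟩ := hx
      rw [mem_coe, mem_biUnion]
      exact ⟨i, mem_univ i, (hfin i).mem_toFinset.2 ⟨hi, hx'⟩⟩
    refine (Set.ncard_le_ncard hsub (Finset.finite_toSet _)).trans ?_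
    rw [Set.ncard_coe_finset]
    refine Finset.card_biUnion_le.trans (le_of_eq ?_)
    exact Finset.sum_congr rfl fun i _ => (Set.ncard_eq_toFinset_card _ (hfin i)).symm
  have h8 : (((⋃ i, A i) ∩ Set.Iio N).ncard : ℝ) ≤ Fintype.card ι * (N : ℝ) ^ (ε / 2) := by
    calc (((⋃ i, A i) ∩ Set.Iio N).ncard : ℝ) ≤ ((∑ i, (A i ∩ Set.Iio N).ncard : ℕ) : ℝ) := by
          exact_mod_cast h7
      _ = ∑ i, ((A i ∩ Set.Iio N).ncard : ℝ) := by push_cast; rfl
      _ ≤ ∑ _i : ι, (N : ℝ) ^ (ε / 2) := Finset.sum_le_sum fun i _ => (h4 i).le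
      _ = Fintype.card ι * (N : ℝ) ^ (ε / 2) := by simp
  have h9 : (N : ℝ) ^ ε = (N : ℝ) ^ (ε / 2) * (N : ℝ) ^ (ε / 2) := by
    rw [← Real.rpow_add (by linarith)]; congr 1; ring
  have h10 : 0 < (N : ℝ) ^ (ε / 2) := by positivity
  rw [h9] at h3
  have h11 := h3.trans h8
  have h12 := le_of_mul_le_mul_right h11 h10
  linarith

/-- bases are dense -/
theorem dense_of_basis {A : Set ℕ} {k n₀ : ℕ} (hA : ∀ n, n₀ ≤ n → 1 ≤ rep A k n) :
    ∃ ε : ℝ, 0 < ε ∧ ∃ᶠ N : ℕ in atTop, (N : ℝ) ^ ε ≤ ((A ∩ Set.Iio N).ncard : ℝ) := by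
  have hk : 1 ≤ k := by
    by_contra hcon
    have hk0 : k = 0 := by omega
    have h1 := hA (n₀ + 1) (by omega)
    unfold rep at h1
    rw [Nat.one_le_iff_ne_zero, ← Nat.pos_iff_ne_zero, Set.ncard_pos (reps_finite A k _)] at h1
    obtain ⟨s, h2, _, h3⟩ := h1
    rw [hk0, Multiset.card_eq_zero] at h2
    rw [h2] at h3
    simp at h3
  refine ⟨1 / (2 * k), by positivity, ?_⟩
  apply Eventually.frequently
  filter_upwards [eventually_ge_atTop (4 * n₀ + 16)] with N hN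
  have h1 := count_of_basis hA N
  have h2 : (N : ℝ) / 2 ≤ ((A ∩ Set.Iio N).ncard : ℝ) ^ k := by
    have h3 : (N : ℝ) ≤ n₀ + ((A ∩ Set.Iio N).ncard : ℝ) ^ k := by exact_mod_cast h1
    have h4 : (4 : ℝ) * n₀ + 16 ≤ N := by exact_mod_cast hN
    have h5 : (0 : ℝ) ≤ n₀ := Nat.cast_nonneg _
    linarith
  have hNp : (16 : ℝ) ≤ N := by
    have h4 : (4 : ℝ) * n₀ + 16 ≤ N := by exact_mod_cast hN
    have h5 : (0 : ℝ) ≤ n₀ := Nat.cast_nonneg _
    linarith
  have h6 : ((N : ℝ) ^ ((1 : ℝ) / (2 * k))) ^ k ≤ ((A ∩ Set.Iio N).ncard : ℝ) ^ k := by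
    refine le_trans ?_ h2
    rw [← Real.rpow_natCast, ← Real.rpow_mul (by linarith)]
    have hk' : (k : ℝ) ≠ 0 := by positivity
    rw [show (1 : ℝ) / (2 * k) * k = 1 / 2 by field_simp, ← Real.sqrt_eq_rpow]
    rw [Real.sqrt_le_left (by linarith)]
    nlinarith
  exact le_of_pow_le_pow_left₀ (by omega) (Nat.cast_nonneg _) h6

end Pool.Agent.H601.T8
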