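import Mathlib

/-!
# Iterates of a morphism: occurrences of letters
-/

set_option autoImplicit false

namespace Pool.Agent.H601.T8

variable {S : Type}

/-- `iter φ l x = φ^l(x)` -/
def iter (φ : S → List S) : ℕ → S → List S
  | 0, x => [x]
  | (l + 1), x => (φ x).flatMap (iter φ l)

theorem iter_zero (φ : S → List S) (x : S) : iter φ 0 x = [x] := rfl

theorem iter_succ (φ : S → List S) (l : ℕ) (x : S) :
    iter φ (l + 1) x = (φ x).flatMap (iter φ l) := rfl

theorem iter_add (φ : S → List S) (l m : ℕ) (x : S) :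
    iter φ (l + m) x = (iter φ l x).flatMap (iter φ m) := by
  induction l generalizing x with
  | zero => simp [iter]
  | succ l ih =>
    rw [show l + 1 + m = (l + m) + 1 by ring, iter_succ, iter_succ, List.flatMap_assoc]
    congr 1
    funext y
    exact ih y

/-- positions of the letters of `M` in a word -/
def pos (M : Set S) (w : List S) : Set ℕ := {n | ∃ x ∈ M, w[n]? = some x}

theorem pos_lt {M : Set S} {w : List S} {n : ℕ} (h : n ∈ pos M w) : n < w.length := by
  obtain ⟨x, _, hx⟩ := h
  exact (List.getElem?_eq_some_iff.1 hx).1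

theorem pos_finite (M : Set S) (w : List S) : (pos M w).Finite :=
  (Set.finite_Iio w.length).subset fun _ h => pos_lt h

theorem pos_append_left {M : Set S} {w v : List S} {n : ℕ} (h : n ∈ pos M w) :
    n ∈ pos M (w ++ v) := by
  have h1 := pos_lt h
  obtain ⟨x, hx, hn⟩ := h
  exact ⟨x, hx, by rw [List.getElem?_append_left h1]; exact hn⟩

theorem pos_append_right {M : Set S} {w v : List S} {n : ℕ} (h : n ∈ pos M v) :
    w.length + n ∈ pos M (w ++ v) := by
  obtain ⟨x, hx, hn⟩ := h
  exact ⟨x, hx, by rw [List.getElem?_append_right (by omega)]; simpa using hn⟩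

theorem pos_append (M : Set S) (w v : List S) :
    pos M (w ++ v) = pos M w ∪ (fun n => w.length + n) '' pos M v := by
  ext n
  constructor
  · rintro ⟨x, hx, hn⟩
    rcases Nat.lt_or_ge n w.length with h | h
    · left
      rw [List.getElem?_append_left h] at hn
      exact ⟨x, hx, hn⟩
    · right
      rw [List.getElem?_append_right h] at hn
      exact ⟨n - w.length, ⟨x, hx, hn⟩, by simp only; omega⟩
  · rintro (h | ⟨m, h, rfl⟩)
    · exact pos_append_left h
    · exact pos_append_right h

theorem ncard_pos_append_le (M : Set S) (w v : List S) :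
    (pos M (w ++ v)).ncard ≤ (pos M w).ncard + (pos M v).ncard := by
  rw [pos_append]
  refine (Set.ncard_union_le _ _).trans ?_
  exact Nat.add_le_add_left (Set.ncard_image_le (pos_finite M v)) _

theorem ncard_pos_flatMap_le (M : Set S) (f : S → List S) (w : List S) :
    (pos M (w.flatMap f)).ncard ≤ (w.map (fun y => (pos M (f y)).ncard)).sum := by
  induction w with
  | nil =>
    have : pos M ([] : List S) = ∅ := by
      ext n
      simp [pos]
    simp [this]
  | cons y w ih =>
    rw [List.flatMap_cons, List.map_cons, List.sum_cons]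
    exact (ncard_pos_append_le M _ _).trans (Nat.add_le_add_left ih _)

/-- the lengths grow at most exponentially -/
theorem length_iter_le (φ : S → List S) (E : ℕ) (hE : ∀ x, (φ x).length ≤ E) (l : ℕ) (x : S) :
    (iter φ l x).length ≤ E ^ l := by
  induction l generalizing x with
  | zero => simp [iter]
  | succ l ih =>
    rw [iter_succ, List.length_flatMap, pow_succ, mul_comm]
    calc ((φ x).map (fun y => (iter φ l y).length)).sum
        ≤ ((φ x).map (fun _ => E ^ l)).sum := List.sum_le_sum fun y _ => ih y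
      _ = (φ x).length * E ^ l := by simp
      _ ≤ E * E ^ l := Nat.mul_le_mul_right _ (hE x)

/-- `y` occurs in `φ^l(x)` for some `l` -/
def Below (φ : S → List S) (x y : S) : Prop := ∃ l, y ∈ iter φ l x

theorem mem_iter_add {φ : S → List S} {l m : ℕ} {x y z : S} (h1 : y ∈ iter φ l x)
    (h2 : z ∈ iter φ m y) : z ∈ iter φ (l + m) x := by
  rw [iter_add, List.mem_flatMap]
  exact ⟨y, h1, h2⟩

theorem Below.refl (φ : S → List S) (x : S) : Below φ x x := ⟨0, by simp [iter]⟩

theorem Below.trans {φ : S → List S} {x y z : S} (h1 : Below φ x y) (h2 : Below φ y z) :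
    Below φ x z := by
  obtain ⟨l, hl⟩ := h1
  obtain ⟨m, hm⟩ := h2
  exact ⟨l + m, mem_iter_add hl hm⟩

/-- a word with `x` at two different places -/
def Twice (x : S) (w : List S) : Prop := ∃ α β γ, w = α ++ [x] ++ β ++ [x] ++ γ

/-- splitting at a letter -/
theorem mem_split {x : S} {w : List S} (h : x ∈ w) : ∃ α β, w = α ++ [x] ++ β := by
  obtain ⟨α, β, rfl⟩ := List.append_of_mem h
  exact ⟨α, β, by simp⟩

theorem twice_append {x : S} {u v : List S} (h1 : x ∈ u) (h2 : x ∈ v) : Twice x (u ++ v) := by
  obtain ⟨α, β, rfl⟩ := mem_split h1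
  obtain ⟨α', β', rfl⟩ := mem_split h2
  exact ⟨α, β ++ α', β', by simp⟩

theorem Twice.append_left {x : S} {u v : List S} (h : Twice x v) : Twice x (u ++ v) := by
  obtain ⟨α, β, γ, rfl⟩ := h
  exact ⟨u ++ α, β, γ, by simp⟩

theorem Twice.append_right {x : S} {u v : List S} (h : Twice x u) : Twice x (u ++ v) := by
  obtain ⟨α, β, γ, rfl⟩ := h
  exact ⟨α, β, γ ++ v, by simp⟩

/-- two letters of `φ(x)` from which `x` can be reached again give two occurrences of `x` -/
theorem twice_of_two {φ : S → List S} {x z z' : S} {α β γ : List S}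
    (h : φ x = α ++ [z] ++ β ++ [z'] ++ γ) (hz : Below φ z x) (hz' : Below φ z' x) :
    ∃ p, 1 ≤ p ∧ Twice x (iter φ p x) := by
  obtain ⟨q, hq⟩ := hz
  obtain ⟨q', hq'⟩ := hz'
  -- `x ∈ φ^(1+q)(x)` and `x ∈ φ^(1+q')(x)`
  have h1 : x ∈ iter φ (1 + q) x := by
    refine mem_iter_add (y := z) ?_ hq
    rw [show (1 : ℕ) = 0 + 1 by rfl, iter_succ, h]
    simp [iter]
  have h2 : x ∈ iter φ (1 + q') x := by
    refine mem_iter_add (y := z') ?_ hq'
    rw [show (1 : ℕ) = 0 + 1 by rfl, iter_succ, h]
    simp [iter]
  refine ⟨(q + (1 + q')) + 1, by omega, ?_⟩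
  rw [iter_succ, h]
  simp only [List.flatMap_append, List.flatMap_cons, List.flatMap_nil, List.append_nil]
  have h3 : x ∈ iter φ (q + (1 + q')) z := mem_iter_add hq h2
  have h4 : x ∈ iter φ (q + (1 + q')) z' := by
    rw [show q + (1 + q') = q' + (1 + q) by ring]
    exact mem_iter_add hq' h1
  rw [List.append_assoc, List.append_assoc, List.append_assoc]
  apply Twice.append_left
  apply twice_append h3
  rw [List.mem_append, List.mem_append]
  exact Or.inr (Or.inl h4)

end Pool.Agent.H601.T8
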